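import Pool.Agent.Y231.NC.Primes

set_option autoImplicit false
set_option maxHeartbeats 400000

namespace Pool.Agent.Y231.NC

open Pool.Agent.Helper6.LVar Pool.Agent.Helper6.AP Pool.Agent.Helper6.NC

/-- `S` is an admissible set of real numbers: its elements are greater than `1`, it is closed in
the interval `(1, ∞)`, it contains the powers of its elements, and it contains every `x > 1` all
of whose sufficiently large powers it contains. -/
structure Admissible (S : Set ℝ) : Prop where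
  one_lt : ∀ x ∈ S, 1 < x
  closed : ∀ x : ℝ, 1 < x → x ∉ S → ∃ δ : ℝ, 0 < δ ∧ ∀ z ∈ S, δ ≤ |z - x|
  pow_mem : ∀ x ∈ S, ∀ n : ℕ, 1 ≤ n → x ^ n ∈ S
  root_mem : ∀ x : ℝ, 1 < x → (∃ k0 : ℕ, ∀ k : ℕ, k0 ≤ k → x ^ k ∈ S) → x ∈ S

theorem cl_iff (S : Set ℝ) : Cl S ↔
    ∀ x : ℝ, 1 < x → x ∉ S → ∃ δ : ℝ, 0 < δ ∧ ∀ z ∈ S, δ ≤ |z - x| := by
  constructor
  · intro h x hx hxS
    obtain ⟨a, b, h1, h2, h3, h4⟩ := h x hx hxS
    refine ⟨min (x - a) (b - x), lt_min (by linarith) (by linarith), fun z hz => ?_⟩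
    by_contra hcon
    push Not at hcon
    rw [lt_min_iff, abs_lt, abs_lt] at hcon
    exact h4 z hz ⟨by linarith [hcon.1.1], by linarith [hcon.2.2]⟩
  · intro h x hx hxS
    obtain ⟨δ, h1, h2⟩ := h x hx hxS
    refine ⟨max (x - δ) 1, x + δ, le_max_right _ _, max_lt (by linarith) hx, by linarith, ?_⟩
    rintro z hz ⟨h3, h4⟩
    have h5 := h2 z hz
    have h6 : x - δ < z := lt_of_le_of_lt (le_max_left _ _) h3
    have h7 : |z - x| < δ := by
      rw [abs_lt]
      constructor <;> linarith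
    linarith

theorem Admissible.cl {S : Set ℝ} (h : Admissible S) : Cl S := (cl_iff S).mpr h.closed

theorem Admissible.escape {S : Set ℝ} (h : Admissible S) (x : ℝ) (hx : 1 < x) (hxS : x ∉ S)
    (B : ℝ) : ∃ k : ℕ, 1 ≤ k ∧ B < x ^ k ∧ x ^ k ∉ S := by
  obtain ⟨k0, hk0⟩ := pow_unbounded_of_one_lt B hx
  by_contra hcon
  push Not at hcon
  apply hxS
  refine h.root_mem x hx ⟨k0 + 1, fun k hk => hcon k (by omega) ?_⟩
  exact hk0.trans_le (pow_le_pow_right₀ hx.le (by omega))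

theorem Admissible.inter {ι : Type} [Nonempty ι] {S : ι → Set ℝ} (h : ∀ i, Admissible (S i)) :
    Admissible (⋂ i, S i) := by
  refine ⟨?_, ?_, ?_, ?_⟩
  · intro x hx
    obtain ⟨i0⟩ := ‹Nonempty ι›
    exact (h i0).one_lt x (Set.mem_iInter.mp hx i0)
  · intro x hx hxS
    rw [Set.mem_iInter] at hxS
    push Not at hxS
    obtain ⟨i, hi⟩ := hxS
    obtain ⟨δ, h1, h2⟩ := (h i).closed x hx hi
    exact ⟨δ, h1, fun z hz => h2 z (Set.mem_iInter.mp hz i)⟩
  · intro x hx n hn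
    rw [Set.mem_iInter] at hx ⊢
    exact fun i => (h i).pow_mem x (hx i) n hn
  · rintro x hx ⟨k0, hk⟩
    rw [Set.mem_iInter]
    exact fun i => (h i).root_mem x hx ⟨k0, fun k hkk => Set.mem_iInter.mp (hk k hkk) i⟩

theorem VS_sub_iff {S T : Set ℝ} (hS : Admissible S) (hT : Admissible T) :
    Sub (VS S) (VS T) ↔ S ⊆ T := by
  constructor
  · intro h x hx
    have h1 := hS.one_lt x hx
    have h0 : 0 < x := by linarith
    by_contra hxT
    exact TT_not_mem_VS hT.cl h1 h0 hxT (h _ (TT_mem_VS h1 h0 (hS.pow_mem x hx)))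
  · exact VS_mono

theorem VS_mem {S : Set ℝ} (hS : Admissible S) : IsSubvarietyOfR (VS S) ∧ NoCover (VS S) :=
  ⟨VS_sub _, VS_noCover hS.cl hS.escape⟩

/-- The quotient of two consecutive powers that are powers of one number. -/
theorem root_of_consecutive {l x : ℝ} (hl : 1 < l) (hx : 1 < x) {k a b : ℕ}
    (e1 : x ^ k = l ^ a) (e2 : x ^ (k + 1) = l ^ b) : 1 ≤ b - a ∧ x = l ^ (b - a) := by
  have h3 : l ^ b = l ^ a * x := by rw [← e1, ← e2, ← pow_succ]
  have hab : a < b := by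
    by_contra hcon2
    have h4 : l ^ b ≤ l ^ a := pow_le_pow_right₀ hl.le (not_lt.mp hcon2)
    have h5 : 0 < l ^ a := by positivity
    nlinarith
  have h4 : l ^ b = l ^ a * l ^ (b - a) := by rw [← pow_add]; congr 1; omega
  have h5 : (l ^ a : ℝ) ≠ 0 := by positivity
  exact ⟨by omega, (mul_left_cancel₀ h5 (by rw [← h4, h3])).symm⟩

/-- The set of the powers of a number is admissible. -/
theorem adm_powers {l : ℝ} (hl : 1 < l) : Admissible {z : ℝ | ∃ n : ℕ, 1 ≤ n ∧ z = l ^ n} := by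
  refine ⟨?_, ?_, ?_, ?_⟩
  · rintro x ⟨n, hn, rfl⟩
    exact one_lt_pow₀ hl (by omega)
  · apply (cl_iff _).mp
    intro x hx hxS
    obtain ⟨n0, h1, h2⟩ := exists_nat_pow_near hx.le hl
    have h3 : l ^ n0 < x := by
      rcases Nat.eq_zero_or_pos n0 with h0 | h0
      · rw [h0, pow_zero]; exact hx
      · exact lt_of_le_of_ne h1 (fun h => hxS ⟨n0, h0, h.symm⟩)
    have h4 : 1 ≤ l ^ n0 := one_le_pow₀ hl.le
    refine ⟨l ^ n0, l ^ (n0 + 1), h4, h3, h2, ?_⟩
    rintro z ⟨n, hn, rfl⟩ ⟨h5, h6⟩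
    rcases le_or_gt n n0 with h7 | h7
    · have : l ^ n ≤ l ^ n0 := pow_le_pow_right₀ hl.le h7
      linarith
    · have : l ^ (n0 + 1) ≤ l ^ n := pow_le_pow_right₀ hl.le h7
      linarith
  · rintro x ⟨n, hn, rfl⟩ m hm
    exact ⟨n * m, by nlinarith, by rw [pow_mul]⟩
  · rintro x hx ⟨k0, hk⟩
    obtain ⟨a, ha, e1⟩ := hk k0 le_rfl
    obtain ⟨b, hb, e2⟩ := hk (k0 + 1) (by omega)
    obtain ⟨h1, h2⟩ := root_of_consecutive hl hx e1 e2
    exact ⟨b - a, h1, h2⟩

/-- The sets of prime powers are admissible. -/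
theorem adm_PP (A : Set ℕ) : Admissible (PP A) := by
  refine ⟨?_, (cl_iff _).mp (PP_cl A), ?_, ?_⟩
  · rintro x ⟨i, hi, n, hn, rfl⟩
    exact_mod_cast Nat.one_lt_pow (by omega) (nth_prime i).one_lt
  · rintro x ⟨i, hi, n, hn, rfl⟩ m hm
    refine ⟨i, hi, n * m, by nlinarith, ?_⟩
    rw [pow_mul]
    push_cast
    rfl
  · rintro x hx ⟨k0, hk⟩
    by_contra hxA
    obtain ⟨k1, hk1⟩ := pow_unbounded_of_one_lt (x ^ k0) hx
    obtain ⟨k, h1, h2, h3⟩ := PP_escape A x hx hxA (x ^ k0)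
    have h4 : k0 ≤ k := ((pow_lt_pow_iff_right₀ hx).mp h2).le
    exact h3 (hk k h4)

/-- All numbers above `1` form an admissible set. -/
theorem adm_Ioi : Admissible (Set.Ioi 1) := by
  refine ⟨fun _ hx => hx, fun _ hx hxS => absurd hx hxS, ?_, fun _ hx _ => hx⟩
  intro x hx n hn
  have hx' : (1 : ℝ) < x := hx
  exact Set.mem_Ioi.mpr (one_lt_pow₀ hx' (Nat.one_le_iff_ne_zero.mp hn))

/-- The empty set is admissible. -/
theorem adm_empty : Admissible ∅ :=
  ⟨fun _ hx => absurd hx (Set.notMem_empty _),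
    fun _ _ _ => ⟨1, one_pos, fun _ hz => absurd hz (Set.notMem_empty _)⟩,
    fun _ hx => absurd hx (Set.notMem_empty _), fun _ _ ⟨k0, hk⟩ =>
      absurd (hk k0 le_rfl) (Set.notMem_empty _)⟩

theorem PP_sub_iff (A B : Set ℕ) : PP A ⊆ PP B ↔ A ⊆ B := by
  constructor
  · intro h i hi
    obtain ⟨j, hj, n, hn, h3⟩ := h ⟨i, hi, 1, le_rfl, rfl⟩
    have h4 : Nat.nth Nat.Prime i ^ 1 = Nat.nth Nat.Prime j ^ n := by exact_mod_cast h3
    rw [base_eq le_rfl h4]
    exact hj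
  · exact PP_mono

/-- The class of the set of all numbers above `1` consists of all representable groups. -/
theorem VS_Ioi (G : Type) [Group G] [Lattice G] : VS (Set.Ioi 1) G ↔ Representable G := by
  constructor
  · intro h
    exact representable_of_law h.1 (VS_repLaw _ h)
  · intro h
    have hG := h.1
    haveI := hG.1
    haveI := hG.2
    have hlaw := law_of_representable h
    refine VS_of hG hlaw ?_
    intro p q p' q' hv x y
    by_contra hne
    obtain ⟨K, iK1, iK2, π, hK, htot, ms, mi, hsurj, hπ⟩ := exists_chain_of_law hlaw hne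
    haveI := hK.1
    haveI := hK.2
    have hi' : eps p q p' q' (π x ⊔ (π x)⁻¹) (π y) ≠ 1 := by
      intro hcon
      apply hπ
      rw [← hcon]
      simp only [eps, ms, mi, map_mul, map_inv, map_pow, map_one]
    obtain ⟨hf1, hf2⟩ := eps_fail htot p q p' q' _ _ hi'
    have hs1 : 1 ≤ π x ⊔ (π x)⁻¹ := by
      rcases htot (π x) 1 with h1 | h1
      · exact le_sup_of_le_right (one_le_inv'.mpr h1)
      · exact le_sup_of_le_left h1
    obtain ⟨hq, hq', hpq, hvX⟩ := id hv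
    obtain ⟨hs, htD, hl1, hb1, hb2⟩ := phi_bounds htot hq hq' hpq hs1 hf1 hf2
    exact hvX _ hl1 ⟨hb1, hb2⟩

end Pool.Agent.Y231.NC
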