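import Pool.Agent.Helper6.NC5

set_option autoImplicit false
set_option maxHeartbeats 400000
set_option linter.unusedSectionVars false
set_option linter.style.haveILetI false

namespace Pool.Agent.Y231.NC

open Pool.Agent.Helper6.LVar Pool.Agent.Helper6.AP Pool.Agent.Helper6.NC

/-- The tuples defining the varieties: rational intervals above `1` avoiding `S`. -/
def ValidS (S : Set ℝ) (p q p' q' : ℕ) : Prop :=
  0 < q ∧ 0 < q' ∧ q < p ∧ ∀ z ∈ S, ¬ ((p : ℝ) / q ≤ z ∧ z ≤ (p' : ℝ) / q')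

/-- The identities. -/
def ES (S : Set ℝ) : Set (LTerm × LTerm) :=
  {e | e = (repT, .one) ∨ ∃ p q p' q', ValidS S p q p' q' ∧ e = (epsT p q p' q', .one)}

/-- The varieties. -/
def VS (S : Set ℝ) : LClass := fun G _ _ => IsLGroup G ∧ Satisfies (ES S) G

theorem VS_variety (S : Set ℝ) : IsVariety (VS S) := ⟨ES S, fun _ _ _ => Iff.rfl⟩

theorem VS_repLaw (S : Set ℝ) {G : Type} [Group G] [Lattice G] (h : VS S G) : RepLaw G := by
  intro x y
  exact h.2 (repT, .one) (Or.inl rfl) (fun i => if i = 0 then x else y)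

theorem VS_sub (S : Set ℝ) : IsSubvarietyOfR (VS S) :=
  ⟨VS_variety S, fun _ _ _ h => representable_of_law h.1 (VS_repLaw S h)⟩

theorem VS_of {S : Set ℝ} {G : Type} [Group G] [Lattice G] (hG : IsLGroup G) (hr : RepLaw G)
    (h : ∀ p q p' q', ValidS S p q p' q' → ∀ x y : G, eps p q p' q' (x ⊔ x⁻¹) y = 1) :
    VS S G := by
  refine ⟨hG, ?_⟩
  rintro e (rfl | ⟨p, q, p', q', hv, rfl⟩) v
  · exact hr (v 0) (v 1)
  · rw [epsT_eval]
    exact h p q p' q' hv _ _

/-- `S` is closed in the interval of the numbers above `1`. -/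
def Cl (S : Set ℝ) : Prop :=
  ∀ x : ℝ, 1 < x → x ∉ S → ∃ a b : ℝ, 1 ≤ a ∧ a < x ∧ x < b ∧ ∀ z ∈ S, ¬ (a < z ∧ z < b)

/-- Intervals around a number that is not in `S`. -/
theorem exists_validS {S : Set ℝ} (hS : Cl S) {x : ℝ} (hx : 1 < x) (h : x ∉ S) :
    ∃ p q p' q' : ℕ, ValidS S p q p' q' ∧ (p : ℝ) / q < x ∧ x < (p' : ℝ) / q' := by
  obtain ⟨a, b, h4, h3, h2, hab⟩ := hS x hx h
  obtain ⟨r, r1, r2⟩ := exists_rat_btwn h3
  obtain ⟨r', r3, r4⟩ := exists_rat_btwn h2
  have hr : 0 < r := by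
    have : (0 : ℝ) < r := by linarith
    exact_mod_cast this
  have hr' : 0 < r' := by
    have : (0 : ℝ) < r' := by linarith
    exact_mod_cast this
  have toNat : ∀ r : ℚ, 0 < r → (r : ℝ) = ((r.num.toNat : ℕ) : ℝ) / ((r.den : ℕ) : ℝ) := by
    intro r hr
    have hn : 0 ≤ r.num := (Rat.num_pos.mpr hr).le
    have e1 : ((r.num.toNat : ℕ) : ℝ) = (r.num : ℝ) := by
      have : ((r.num.toNat : ℕ) : ℤ) = r.num := Int.toNat_of_nonneg hn
      exact_mod_cast congrArg (fun z : ℤ => (z : ℝ)) this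
    rw [e1]
    exact_mod_cast (Rat.num_div_den r).symm
  refine ⟨r.num.toNat, r.den, r'.num.toNat, r'.den, ⟨r.pos, r'.pos, ?_, ?_⟩, ?_, ?_⟩
  · have h5 : (1 : ℝ) < ((r.num.toNat : ℕ) : ℝ) / ((r.den : ℕ) : ℝ) := by
      rw [← toNat r hr]; linarith
    have h6 : (0 : ℝ) < ((r.den : ℕ) : ℝ) := by exact_mod_cast r.pos
    rw [lt_div_iff₀ h6, one_mul] at h5
    exact_mod_cast h5
  · rintro z hz ⟨h5, h6⟩
    rw [← toNat r hr] at h5
    rw [← toNat r' hr'] at h6
    exact hab z hz ⟨by linarith, by linarith⟩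
  · rw [← toNat r hr]; exact r2
  · rw [← toNat r' hr']; exact r3

section chain

variable {K : Type} [Group K] [Lattice K] [MulLeftMono K] [MulRightMono K]

theorem phi_bounds (htot : ∀ x y : K, x ≤ y ∨ y ≤ x) {p q p' q' : ℕ} (hq : 0 < q)
    (hq' : 0 < q') (hpq : q < p) {s t : K} (hs1 : 1 ≤ s)
    (hf1 : s ^ p < (t * s * t⁻¹) ^ q) (hf2 : (t * s * t⁻¹) ^ q' < s ^ p') :
    1 < s ∧ InD s (t * s * t⁻¹) ∧ 1 < phi s (t * s * t⁻¹) ∧
      (p : ℝ) / q ≤ phi s (t * s * t⁻¹) ∧ phi s (t * s * t⁻¹) ≤ (p' : ℝ) / q' := by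
  have hs : 1 < s := by
    refine lt_of_le_of_ne hs1 ?_
    rintro rfl
    rw [mul_one, mul_inv_cancel, one_pow, one_pow] at hf1
    exact lt_irrefl _ hf1
  have hc1 : 1 ≤ t * s * t⁻¹ := by
    have := conj_mono t hs1
    rwa [mul_one, mul_inv_cancel] at this
  have htD : InD s (t * s * t⁻¹) := by
    refine ⟨p', ?_, ?_⟩
    · refine le_trans ?_ hc1
      have := zmono hs1 (show -(p' : ℤ) ≤ 0 by omega)
      rwa [zpow_zero] at this
    · rw [zpow_natCast]
      refine le_trans ?_ hf2.le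
      exact le_self_pow hc1 hq'.ne'
  have hqr : (0 : ℝ) < q := by exact_mod_cast hq
  have hb1 : (p : ℝ) / q ≤ phi s (t * s * t⁻¹) := by
    have h1 : s ^ (p : ℤ) ≤ (t * s * t⁻¹) ^ q := by rw [zpow_natCast]; exact hf1.le
    have := le_phi htot hs htD hq h1
    simpa using this
  have hb2 : phi s (t * s * t⁻¹) ≤ (p' : ℝ) / q' := by
    have h1 : (t * s * t⁻¹) ^ q' ≤ s ^ (p' : ℤ) := by rw [zpow_natCast]; exact hf2.le
    have := phi_le htot hs htD hq' h1
    simpa using this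
  have h2 : (1 : ℝ) < (p : ℝ) / q := by
    rw [lt_div_iff₀ hqr, one_mul]
    exact_mod_cast hpq
  exact ⟨hs, htD, by linarith, hb1, hb2⟩

theorem eps_of_phi (htot : ∀ x y : K, x ≤ y ∨ y ≤ x) {p1 q1 p1' q1' : ℕ} (hq1 : 0 < q1)
    (hq1' : 0 < q1') {s t : K} (hs : 1 < s) (htD : InD s (t * s * t⁻¹))
    (g1 : (p1 : ℝ) / q1 < phi s (t * s * t⁻¹)) (g2 : phi s (t * s * t⁻¹) < (p1' : ℝ) / q1') :
    eps p1 q1 p1' q1' s t ≠ 1 := by
  have hq1r : (0 : ℝ) < q1 := by exact_mod_cast hq1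
  have hq1r' : (0 : ℝ) < q1' := by exact_mod_cast hq1'
  have lt_of : ∀ a b : K, ¬ a ≤ b → b < a := by
    intro a b hab
    rcases htot a b with h | h
    · exact absurd h hab
    · exact lt_of_le_of_ne h (fun hh => hab hh.ge)
  rw [div_lt_iff₀ hq1r] at g1
  rw [lt_div_iff₀ hq1r'] at g2
  apply eps_ne_one htot
  · apply lt_of
    intro h1
    rw [← zpow_natCast, ← zpow_natCast] at h1
    have := phi_mono htot hs (htD.zpow _) ((InD.self hs).zpow _) h1
    rw [phi_zpow htot hs htD, phi_zpow htot hs (InD.self hs), phi_self htot hs] at this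
    push_cast at this
    linarith
  · apply lt_of
    intro h1
    rw [← zpow_natCast, ← zpow_natCast] at h1
    have := phi_mono htot hs ((InD.self hs).zpow _) (htD.zpow _) h1
    rw [phi_zpow htot hs htD, phi_zpow htot hs (InD.self hs), phi_self htot hs] at this
    push_cast at this
    linarith

/-- In a totally ordered group of the variety the multipliers above `1` are in `S`. -/
theorem VS_chain {S : Set ℝ} (hS : Cl S) (htot : ∀ x y : K, x ≤ y ∨ y ≤ x) (h : VS S K)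
    {s t : K} (hs : 1 < s) (htD : InD s (t * s * t⁻¹)) (hl : 1 < phi s (t * s * t⁻¹)) :
    phi s (t * s * t⁻¹) ∈ S := by
  by_contra hcon
  obtain ⟨p, q, p', q', hv, h1, h2⟩ := exists_validS hS hl hcon
  have h3 := h.2 (epsT p q p' q', .one) (Or.inr ⟨p, q, p', q', hv, rfl⟩)
    (fun i => if i = 0 then s else t)
  rw [epsT_eval] at h3
  have e : s ⊔ s⁻¹ = s := sup_eq_left.mpr ((inv_le_one'.mpr hs.le).trans hs.le)
  simp only [if_true] at h3
  rw [e] at h3
  exact eps_of_phi htot hv.1 hv.2.1 hs htD h1 h2 h3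

end chain

/-- The varieties are monotone. -/
theorem VS_mono {S T : Set ℝ} (h : S ⊆ T) : Sub (VS S) (VS T) := by
  intro G _ _ hG
  refine ⟨hG.1, fun e he v => hG.2 e ?_ v⟩
  rcases he with rfl | ⟨p, q, p', q', hv, rfl⟩
  · exact Or.inl rfl
  · exact Or.inr ⟨p, q, p', q', ⟨hv.1, hv.2.1, hv.2.2.1, fun z hz => hv.2.2.2 z (h hz)⟩, rfl⟩

/-- Meets. -/
theorem VS_inter {ι : Type*} [Nonempty ι] (S : ι → Set ℝ) (hS : ∀ i, Cl (S i)) (G : Type)
    [Group G] [Lattice G] : VS (⋂ i, S i) G ↔ ∀ i, VS (S i) G := by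
  constructor
  · intro h i
    exact VS_mono (Set.iInter_subset S i) G h
  · intro h
    obtain ⟨i0⟩ := ‹Nonempty ι›
    have hG := (h i0).1
    haveI := hG.1
    haveI := hG.2
    have hlaw := VS_repLaw _ (h i0)
    refine VS_of hG hlaw ?_
    intro p q p' q' hv x y
    by_contra hne
    obtain ⟨K, iK1, iK2, π, hK, htot, ms, mi, hsurj, hπ⟩ := exists_chain_of_law hlaw hne
    haveI := hK.1
    haveI := hK.2
    have hKV : ∀ i, VS (S i) K := fun i =>
      ⟨hK, satisfies_of_surj (f := π) ⟨map_mul π, ms, mi⟩ hsurj (h i).2⟩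
    have hi' : eps p q p' q' (π x ⊔ (π x)⁻¹) (π y) ≠ 1 := by
      intro hcon
      apply hπ
      rw [← hcon]
      simp only [eps, ms, mi, map_mul, map_inv, map_pow, map_one]
    obtain ⟨hf1, hf2⟩ := eps_fail htot p q p' q' _ _ hi'
    have hs1 : 1 ≤ π x ⊔ (π x)⁻¹ := by
      rcases htot (π x) 1 with h1 | h1
      · exact le_sup_of_le_right (one_le_inv'.mpr h1)
      · exact le_sup_of_le_left h1
    obtain ⟨hq, hq', hpq, hvX⟩ := id hv
    obtain ⟨hs, htD, hl1, hb1, hb2⟩ := phi_bounds htot hq hq' hpq hs1 hf1 hf2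
    apply hvX _ ?_ ⟨hb1, hb2⟩
    rw [Set.mem_iInter]
    intro i
    exact VS_chain (hS i) htot (hKV i) hs htD hl1

theorem TT_mem_VS {S : Set ℝ} {l : ℝ} (hl : 1 < l) (h0 : 0 < l)
    (hp : ∀ n : ℕ, 1 ≤ n → l ^ n ∈ S) : VS S (TT l h0) := by
  refine VS_of ⟨inferInstance, inferInstance⟩ (RepLaw.of_total Ext.total) ?_
  rintro p q p' q' ⟨hq, hq', hpq, hv⟩ x y
  apply TT_eps p q p' q' hq hq' hpq
  intro j
  rcases le_or_gt j 0 with hj | hj
  · left
    have h1 : l ^ j ≤ 1 := by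
      have := zpow_le_zpow_right₀ hl.le hj
      rwa [zpow_zero] at this
    have h2 : (1 : ℝ) < (p : ℝ) / q := by
      have hqr : (0 : ℝ) < q := by exact_mod_cast hq
      rw [lt_div_iff₀ hqr, one_mul]
      exact_mod_cast hpq
    linarith
  · obtain ⟨n, hn⟩ := Int.eq_ofNat_of_zero_le hj.le
    have h1 := hv _ (hp n (by omega))
    rw [hn, zpow_natCast]
    by_contra hcon
    push Not at hcon
    exact h1 hcon

theorem TT_not_mem_VS {S : Set ℝ} (hS : Cl S) {l : ℝ} (hl : 1 < l) (h0 : 0 < l)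
    (h : l ∉ S) : ¬ VS S (TT l h0) := by
  intro h3
  obtain ⟨p, q, p', q', hv, h1, h2⟩ := exists_validS hS hl h
  have h4 := h3.2 (epsT p q p' q', .one) (Or.inr ⟨p, q, p', q', hv, rfl⟩)
    (fun i => if i = 0 then ⟨1, 0⟩ else ⟨0, 1⟩)
  rw [epsT_eval] at h4
  exact TT_eps_fail p q p' q' hv.1 hv.2.1 1 (by rwa [zpow_one]) (by rwa [zpow_one]) h4

/-- The varieties have no covers. -/
theorem VS_noCover {S : Set ℝ} (hS : Cl S)
    (hE2 : ∀ x : ℝ, 1 < x → x ∉ S → ∀ B : ℝ, ∃ k : ℕ, 1 ≤ k ∧ B < x ^ k ∧ x ^ k ∉ S) :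
    NoCover (VS S) := by
  rintro W ⟨⟨E, hE⟩, hWR⟩ ⟨⟨hsub, hns⟩, hno⟩
  apply hno
  clear hno
  -- a chain in `W` violating one of the identities
  have hG0 : ∃ (G : Type) (_ : Group G) (_ : Lattice G), W G ∧ ¬ VS S G := by
    by_contra hcon
    push Not at hcon
    exact hns fun G _ _ hG => hcon G _ _ hG
  obtain ⟨G0, _, _, hWG, hVG⟩ := hG0
  have hrep := hWR G0 hWG
  have hlaw := law_of_representable hrep
  obtain ⟨hG0l, ι, T, i1, i2, f, f1, f2, f3, f4, f5⟩ := hrep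
  have hviol : ∃ p q p' q', ValidS S p q p' q' ∧ ∃ x y : G0, eps p q p' q' (x ⊔ x⁻¹) y ≠ 1 := by
    by_contra hcon
    push Not at hcon
    exact hVG (VS_of hG0l hlaw hcon)
  obtain ⟨p, q, p', q', hv, x, y, hxy⟩ := hviol
  have hi : ∃ i, f i (eps p q p' q' (x ⊔ x⁻¹) y) ≠ f i 1 := by
    by_contra hcon
    push Not at hcon
    exact hxy (f5 _ _ hcon)
  obtain ⟨i, hi⟩ := hi
  haveI := (f1 i).1
  haveI := (f1 i).2
  set φ : G0 →* T i := MonoidHom.mk' (f i) (f3 i).map_mul with hφ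
  have hφ1 : φ 1 = 1 := map_one φ
  have hKW : Satisfies E (T i) := satisfies_of_surj (f3 i) (f4 i) (((hE G0).mp hWG).2)
  have hi' : eps p q p' q' (φ x ⊔ (φ x)⁻¹) (φ y) ≠ 1 := by
    intro hcon
    apply hi
    change φ (eps p q p' q' (x ⊔ x⁻¹) y) = φ 1
    have ms : ∀ a b, φ (a ⊔ b) = φ a ⊔ φ b := (f3 i).map_sup
    have mi : ∀ a b, φ (a ⊓ b) = φ a ⊓ φ b := (f3 i).map_inf
    rw [hφ1, ← hcon]
    simp only [eps, ms, mi, map_mul, map_inv, map_pow, map_one]
  have htot := f2 i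
  obtain ⟨hf1, hf2⟩ := eps_fail htot p q p' q' _ _ hi'
  have hs1 : 1 ≤ φ x ⊔ (φ x)⁻¹ := by
    rcases htot (φ x) 1 with h1 | h1
    · exact le_sup_of_le_right (one_le_inv'.mpr h1)
    · exact le_sup_of_le_left h1
  generalize φ x ⊔ (φ x)⁻¹ = s at hf1 hf2 hs1 hi'
  generalize φ y = t at hf1 hf2 hi'
  obtain ⟨hq, hq', hpq, hvX⟩ := id hv
  have hs : 1 < s := by
    refine lt_of_le_of_ne hs1 ?_
    rintro rfl
    rw [mul_one, mul_inv_cancel, one_pow, one_pow] at hf1
    exact lt_irrefl _ hf1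
  have hc1 : 1 ≤ t * s * t⁻¹ := by
    have := conj_mono t hs1
    rwa [mul_one, mul_inv_cancel] at this
  have htD : InD s (t * s * t⁻¹) := by
    refine ⟨p', ?_, ?_⟩
    · refine le_trans ?_ hc1
      have := zmono hs1 (show -(p' : ℤ) ≤ 0 by omega)
      rwa [zpow_zero] at this
    · rw [zpow_natCast]
      refine le_trans ?_ hf2.le
      exact le_self_pow hc1 hq'.ne'
  set lam := phi s (t * s * t⁻¹) with hlam
  have hqr : (0 : ℝ) < q := by exact_mod_cast hq
  have hqr' : (0 : ℝ) < q' := by exact_mod_cast hq'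
  have hb1 : (p : ℝ) / q ≤ lam := by
    have h1 : s ^ (p : ℤ) ≤ (t * s * t⁻¹) ^ q := by rw [zpow_natCast]; exact hf1.le
    have := le_phi htot hs htD hq h1
    simpa using this
  have hb2 : lam ≤ (p' : ℝ) / q' := by
    have h1 : (t * s * t⁻¹) ^ q' ≤ s ^ (p' : ℤ) := by rw [zpow_natCast]; exact hf2.le
    have := phi_le htot hs htD hq' h1
    simpa using this
  have hlam1 : 1 < lam := by
    have h2 : (1 : ℝ) < (p : ℝ) / q := by
      rw [lt_div_iff₀ hqr, one_mul]
      exact_mod_cast hpq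
    linarith
  have hlam0 : 0 < lam := by linarith
  have hlamX : lam ∉ S := fun h1 => hvX lam h1 ⟨hb1, hb2⟩
  -- a small interval around `lam`
  obtain ⟨p1, q1, p1', q1', hv1, g1, g2⟩ := exists_validS hS hlam1 hlamX
  obtain ⟨hq1, hq1', hpq1, -⟩ := id hv1
  have hq1r : (0 : ℝ) < q1 := by exact_mod_cast hq1
  have hq1r' : (0 : ℝ) < q1' := by exact_mod_cast hq1'
  -- a large exponent
  obtain ⟨k, hk, hkb, hkX⟩ := hE2 lam hlam1 hlamX ((p1' : ℝ) / q1')
  -- a small interval around `lam ^ k`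
  have hlamk : 1 < lam ^ k := one_lt_pow₀ hlam1 (by omega)
  obtain ⟨p2, q2, p2', q2', hv2, g3, g4⟩ := exists_validS hS hlamk hkX
  obtain ⟨hq2, hq2', -, -⟩ := id hv2
  -- the element `t'`
  obtain ⟨i', hi1, ht1⟩ : ∃ i' : ℤ, (i' = k ∨ i' = -k) ∧ 1 ≤ t ^ i' := by
    rcases htot t 1 with h1 | h1
    · refine ⟨-k, Or.inr rfl, ?_⟩
      rw [zpow_neg, zpow_natCast, ← inv_pow]
      exact one_le_pow_of_one_le' (one_le_inv'.mpr h1) k
    · refine ⟨k, Or.inl rfl, ?_⟩
      rw [zpow_natCast]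
      exact one_le_pow_of_one_le' h1 k
  obtain ⟨hD', hφ'⟩ := conj_zpow_phi htot hs htD hlam0 i' s (InD.self hs)
  rw [phi_self htot hs, mul_one, ← hlam] at hφ'
  have hμ : 0 < phi s (t ^ i' * s * (t ^ i')⁻¹) := by rw [hφ']; positivity
  have hμ1 : phi s (t ^ i' * s * (t ^ i')⁻¹) ≠ 1 := by
    rw [hφ']
    intro h1
    have h2 : lam ^ i' = lam ^ (0 : ℤ) := by rw [h1, zpow_zero]
    have h3 := zpow_right_injective₀ hlam0 hlam1.ne' h2
    omega
  let H := QG htot hs hD' hμ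
  letI : Lattice H := chainLattice Ext.total H
  have hHl : IsLGroup H := chainLattice_isLGroup Ext.total H
  have hHE : Satisfies E H := chainLattice_satisfies Ext.total H E
    (QG_eval htot hs hD' hμ ht1 hμ1 hKW)
  -- the identity of the small interval holds in `H`
  have hH1 : Satisfies {(epsT p1 q1 p1' q1', LTerm.one)} H := by
    apply chainLattice_satisfies Ext.total H
    rintro e he v -
    rw [Set.mem_singleton_iff] at he
    subst he
    rw [epsT_eval]
    apply TT_eps p1 q1 p1' q1' hq1 hq1' hpq1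
    intro j
    rw [hφ', ← zpow_mul]
    rcases le_or_gt (i' * j) 0 with h1 | h1
    · left
      have h2 : lam ^ (i' * j) ≤ 1 := by
        have := zpow_le_zpow_right₀ hlam1.le h1
        rwa [zpow_zero] at this
      have h3 : (1 : ℝ) < (p1 : ℝ) / q1 := by
        rw [lt_div_iff₀ hq1r, one_mul]
        exact_mod_cast hpq1
      linarith
    · right
      have h2 : (k : ℤ) ≤ i' * j := by
        rcases hi1 with rfl | rfl
        · have hj : 0 < j := by
            by_contra hcon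
            have : (k : ℤ) * j ≤ 0 :=
              mul_nonpos_of_nonneg_of_nonpos (by positivity) (not_lt.mp hcon)
            omega
          nlinarith
        · have hj : j < 0 := by
            by_contra hcon
            have : 0 ≤ (k : ℤ) * j := mul_nonneg (by positivity) (not_lt.mp hcon)
            linarith
          nlinarith
      have h3 : lam ^ (k : ℤ) ≤ lam ^ (i' * j) := zpow_le_zpow_right₀ hlam1.le h2
      rw [zpow_natCast] at h3
      linarith
  -- `H` violates the identity of the second interval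
  have hH2 : ¬ VS S H := by
    intro hcon
    have hm1 := QG_mem1 htot hs hD' hμ
    have hm2 := QG_mem2 htot hs hD' hμ
    obtain ⟨j, hj, hjm⟩ : ∃ j : ℤ, i' * j = k ∧
        (⟨0, j⟩ : TT (phi s (t ^ i' * s * (t ^ i')⁻¹)) hμ) ∈ H := by
      rcases hi1 with h1 | h1
      · exact ⟨1, by omega, hm2⟩
      · refine ⟨-1, by omega, ?_⟩
        have := H.inv_mem hm2
        have e : (⟨0, 1⟩ : TT (phi s (t ^ i' * s * (t ^ i')⁻¹)) hμ)⁻¹ = ⟨0, -1⟩ := by
          ext
          · simp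
          · simp
        rwa [e] at this
    have h1 := hcon.2 (epsT p2 q2 p2' q2', .one) (Or.inr ⟨p2, q2, p2', q2', hv2, rfl⟩)
      (fun i => if i = 0 then ⟨⟨1, 0⟩, hm1⟩ else ⟨⟨0, j⟩, hjm⟩)
    have h2 := congrArg (fun z : H => (z : TT (phi s (t ^ i' * s * (t ^ i')⁻¹)) hμ)) h1
    simp only at h2
    rw [chainLattice_eval, epsT_eval] at h2
    have e1 : (phi s (t ^ i' * s * (t ^ i')⁻¹)) ^ j = lam ^ k := by
      rw [hφ', ← zpow_mul, hj, zpow_natCast]
    exact TT_eps_fail p2 q2 p2' q2' hq2 hq2' j (by rw [e1]; exact g3) (by rw [e1]; exact g4) h2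
  -- `K` violates the identity of the small interval
  have hK1 : eps p1 q1 p1' q1' s t ≠ 1 := by
    have lt_of : ∀ a b : T i, ¬ a ≤ b → b < a := by
      intro a b hab
      rcases htot a b with h | h
      · exact absurd h hab
      · exact lt_of_le_of_ne h (fun hh => hab hh.ge)
    rw [div_lt_iff₀ hq1r] at g1
    rw [lt_div_iff₀ hq1r'] at g2
    apply eps_ne_one htot
    · apply lt_of
      intro h1
      rw [← zpow_natCast, ← zpow_natCast] at h1
      have := phi_mono htot hs (htD.zpow _) ((InD.self hs).zpow _) h1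
      rw [phi_zpow htot hs htD, phi_zpow htot hs (InD.self hs), phi_self htot hs, ← hlam] at this
      push_cast at this
      linarith
    · apply lt_of
      intro h1
      rw [← zpow_natCast, ← zpow_natCast] at h1
      have := phi_mono htot hs ((InD.self hs).zpow _) (htD.zpow _) h1
      rw [phi_zpow htot hs htD, phi_zpow htot hs (InD.self hs), phi_self htot hs, ← hlam] at this
      push_cast at this
      linarith
  -- the intermediate variety
  let EU : Set (LTerm × LTerm) :=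
    {e | (∀ (G : Type) [Group G] [Lattice G], VS S G → Satisfies {e} G) ∧ Satisfies {e} H}
  refine ⟨fun G _ _ => IsLGroup G ∧ Satisfies EU G, ⟨EU, fun _ _ _ => Iff.rfl⟩, ⟨?_, ?_⟩,
    ⟨?_, ?_⟩⟩
  · intro G _ _ hG
    exact ⟨hG.1, fun e he v => he.1 G hG e rfl v⟩
  · intro hcon
    exact hH2 (hcon H ⟨hHl, fun e he v => he.2 e rfl v⟩)
  · intro G _ _ hG
    rw [hE G]
    refine ⟨hG.1, fun e he v => hG.2 e ⟨?_, ?_⟩ v⟩
    · intro G' _ _ hG' e' he' v'
      rw [Set.mem_singleton_iff] at he'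
      subst he'
      exact ((hE G').mp (hsub G' hG')).2 _ he v'
    · intro e' he' v'
      rw [Set.mem_singleton_iff] at he'
      subst he'
      exact hHE _ he v'
  · intro hcon
    have h1 := hcon (T i) ((hE (T i)).mpr ⟨f1 i, hKW⟩)
    have h2 := h1.2 (epsT p1 q1 p1' q1', .one) ⟨?_, hH1⟩ (fun i => if i = 0 then s else t)
    · rw [epsT_eval] at h2
      have e : s ⊔ s⁻¹ = s := sup_eq_left.mpr ((inv_le_one'.mpr hs1).trans hs1)
      simp only [if_true] at h2
      rw [e] at h2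
      exact hK1 h2
    · intro G' _ _ hG' e' he' v'
      rw [Set.mem_singleton_iff] at he'
      subst he'
      exact hG'.2 _ (Or.inr ⟨p1, q1, p1', q1', hv1, rfl⟩) v'

end Pool.Agent.Y231.NC
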