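import Pool.Agent.Y231.NC.Gen

set_option autoImplicit false
set_option maxHeartbeats 400000

namespace Pool.Agent.Y231.NC

open Pool.Agent.Helper6.LVar Pool.Agent.Helper6.AP Pool.Agent.Helper6.NC

/-- The powers of the `i`-th prime, `i ∈ A`. -/
def PP (A : Set ℕ) : Set ℝ :=
  {z | ∃ i ∈ A, ∃ n : ℕ, 1 ≤ n ∧ z = ((Nat.nth Nat.Prime i ^ n : ℕ) : ℝ)}

theorem nth_prime (i : ℕ) : (Nat.nth Nat.Prime i).Prime := Nat.prime_nth_prime i

theorem nth_inj {i j : ℕ} (h : Nat.nth Nat.Prime i = Nat.nth Nat.Prime j) : i = j :=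
  Nat.nth_injective Nat.infinite_setOf_prime h

/-- Equal prime powers have equal bases. -/
theorem base_eq {i j m n : ℕ} (hm : 1 ≤ m)
    (h : Nat.nth Nat.Prime i ^ m = Nat.nth Nat.Prime j ^ n) : i = j := by
  have h1 : Nat.nth Nat.Prime i ∣ Nat.nth Nat.Prime j ^ n := by
    rw [← h]
    exact dvd_pow_self _ (by omega)
  have h2 := (nth_prime i).dvd_of_dvd_pow h1
  exact nth_inj ((Nat.prime_dvd_prime_iff_eq (nth_prime i) (nth_prime j)).mp h2)

theorem PP_cl (A : Set ℕ) : Cl (PP A) := by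
  intro x hx hxA
  have hc : (2 : ℤ) ≤ ⌈x⌉ := by
    have : (1 : ℤ) < ⌈x⌉ := Int.lt_ceil.mpr (by exact_mod_cast hx)
    omega
  refine ⟨(⌈x⌉ : ℝ) - 1, (⌊x⌋ : ℝ) + 1, ?_, ?_, Int.lt_floor_add_one x, ?_⟩
  · have : (2 : ℝ) ≤ (⌈x⌉ : ℝ) := by exact_mod_cast hc
    linarith
  · have := Int.ceil_lt_add_one x
    linarith
  · rintro z hz ⟨h1, h2⟩
    obtain ⟨i, hi, n, hn, rfl⟩ := id hz
    generalize Nat.nth Nat.Prime i ^ n = N at hz h1 h2
    have h3 : ⌈x⌉ - 1 < (N : ℤ) := by exact_mod_cast h1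
    have h4 : (N : ℤ) < ⌊x⌋ + 1 := by exact_mod_cast h2
    have h5 : x ≤ ((N : ℤ) : ℝ) := Int.ceil_le.mp (by omega)
    have h6 : ((N : ℤ) : ℝ) ≤ x := Int.le_floor.mp (by omega)
    have h7 : x = (N : ℝ) := by
      have := le_antisymm h5 h6
      exact_mod_cast this
    exact hxA (h7 ▸ hz)

theorem PP_escape (A : Set ℕ) (x : ℝ) (hx : 1 < x) (hxA : x ∉ PP A) (B : ℝ) :
    ∃ k : ℕ, 1 ≤ k ∧ B < x ^ k ∧ x ^ k ∉ PP A := by
  obtain ⟨k0, hk0⟩ := pow_unbounded_of_one_lt B hx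
  have hk1 : B < x ^ (k0 + 1) := hk0.trans_le (pow_le_pow_right₀ hx.le (Nat.le_succ k0))
  have hk2 : B < x ^ (k0 + 2) := hk0.trans_le (pow_le_pow_right₀ hx.le (by omega))
  by_contra hcon
  push Not at hcon
  obtain ⟨i, hi, a, ha, ha'⟩ := hcon (k0 + 1) (by omega) hk1
  obtain ⟨j, hj, b, hb, hb'⟩ := hcon (k0 + 2) (by omega) hk2
  have h1 : (((Nat.nth Nat.Prime i ^ a : ℕ) : ℝ)) ^ (k0 + 2)
      = (((Nat.nth Nat.Prime j ^ b : ℕ) : ℝ)) ^ (k0 + 1) := by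
    rw [← ha', ← hb', ← pow_mul, ← pow_mul, mul_comm]
  have h2 : Nat.nth Nat.Prime i ^ (a * (k0 + 2)) = Nat.nth Nat.Prime j ^ (b * (k0 + 1)) := by
    rw [pow_mul, pow_mul]
    exact_mod_cast h1
  have hij : i = j := base_eq (by nlinarith) h2
  subst hij
  have hp : (1 : ℝ) < (Nat.nth Nat.Prime i : ℝ) := by exact_mod_cast (nth_prime i).one_lt
  generalize hgen : (Nat.nth Nat.Prime i : ℝ) = l at hp
  have e1 : x ^ (k0 + 1) = l ^ a := by rw [ha', ← hgen]; push_cast; rfl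
  have e2 : x ^ (k0 + 2) = l ^ b := by rw [hb', ← hgen]; push_cast; rfl
  have h3 : l ^ b = l ^ a * x := by rw [← e1, ← e2, ← pow_succ]
  have hab : a < b := by
    by_contra hcon2
    have h4 : l ^ b ≤ l ^ a := pow_le_pow_right₀ hp.le (not_lt.mp hcon2)
    have h5 : 0 < l ^ a := by positivity
    nlinarith
  have h4 : l ^ b = l ^ a * l ^ (b - a) := by rw [← pow_add]; congr 1; omega
  have h5 : (l ^ a : ℝ) ≠ 0 := by positivity
  have h6 : l ^ (b - a) = x := mul_left_cancel₀ h5 (by rw [← h4, h3])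
  apply hxA
  refine ⟨i, hi, b - a, by omega, ?_⟩
  rw [← h6, ← hgen]
  push_cast
  rfl

theorem PP_mono {A B : Set ℕ} (h : A ⊆ B) : PP A ⊆ PP B := by
  rintro z ⟨i, hi, n, hn, rfl⟩
  exact ⟨i, h hi, n, hn, rfl⟩

theorem PP_inter {ι : Type} [Nonempty ι] (A : ι → Set ℕ) : PP (⋂ i, A i) = ⋂ i, PP (A i) := by
  apply Set.Subset.antisymm
  · exact Set.subset_iInter fun i => PP_mono (Set.iInter_subset A i)
  · intro z hz
    rw [Set.mem_iInter] at hz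
    obtain ⟨i0⟩ := ‹Nonempty ι›
    obtain ⟨m, hm, n, hn, rfl⟩ := hz i0
    refine ⟨m, ?_, n, hn, rfl⟩
    rw [Set.mem_iInter]
    intro i
    obtain ⟨m', hm', n', hn', h⟩ := hz i
    have h' : Nat.nth Nat.Prime m ^ n = Nat.nth Nat.Prime m' ^ n' := by exact_mod_cast h
    rw [base_eq hn h']
    exact hm'

/-- The embedding of the power set. -/
def FF (A : Set ℕ) : LClass := VS (PP A)

theorem FF_sub_iff (A B : Set ℕ) : Sub (FF A) (FF B) ↔ A ⊆ B := by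
  constructor
  · intro h i hi
    have hp : (1 : ℝ) < (Nat.nth Nat.Prime i : ℝ) := by exact_mod_cast (nth_prime i).one_lt
    have h0 : (0 : ℝ) < (Nat.nth Nat.Prime i : ℝ) := by linarith
    by_contra hiB
    have h1 : VS (PP A) (TT (Nat.nth Nat.Prime i : ℝ) h0) :=
      TT_mem_VS hp h0 fun n hn => ⟨i, hi, n, hn, by push_cast; rfl⟩
    have h2 : VS (PP B) (TT (Nat.nth Nat.Prime i : ℝ) h0) := h _ h1
    refine TT_not_mem_VS (PP_cl B) hp h0 ?_ h2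
    rintro ⟨j, hj, n, hn, h3⟩
    have h4 : Nat.nth Nat.Prime i ^ 1 = Nat.nth Nat.Prime j ^ n := by
      rw [pow_one]; exact_mod_cast h3
    rw [base_eq le_rfl h4] at hiB
    exact hiB hj
  · intro h
    exact VS_mono (PP_mono h)

theorem FF_mem (A : Set ℕ) : IsSubvarietyOfR (FF A) ∧ NoCover (FF A) :=
  ⟨VS_sub _, VS_noCover (PP_cl A) fun x hx hxA B => PP_escape A x hx hxA B⟩

theorem FF_inter {ι : Type} [Nonempty ι] (A : ι → Set ℕ) (G : Type) [Group G] [Lattice G] :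
    FF (⋂ i, A i) G ↔ ∀ i, FF (A i) G := by
  change VS (PP (⋂ i, A i)) G ↔ _
  rw [PP_inter]
  exact VS_inter _ (fun i => PP_cl (A i)) G

end Pool.Agent.Y231.NC
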